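import Pool.Agent.N601.TL.Fin

set_option autoImplicit false

/-!
# Near a Lyapunov stable periodic orbit of the planar `n`-body problem all mean motions are locked

Let the orbit `γ` of a periodic solution `x` of the planar `n`-body problem be Lyapunov stable in the
centre of mass frame. Let `w a b` be the number of turns which the vector from body `b` to body `a` makes
in one period. Then there are a neighbourhood `U` of `γ` and a constant `C` such that for *every* solution
`y` starting in `U` there is a function `s` of the time with

  `|turn y a b t - 2 π * w a b * s t| ≤ C`   for all `t ≥ 0` and all pairs of bodies `a ≠ b`,

where `turn y a b t` is the angle by which the vector from `b` to `a` turns between the times `0` and `t`.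
So the mean motions of all pairs have, for all solutions near `γ`, exactly the rational ratios which
they have on `γ`, with bounded discrepancy for all times: no precession of one pair relative to another
is possible (for instance of the orbit of an outer body relative to an inner binary), although energy and
angular momentum of the solutions `y` vary.

By the starting result `StableOrbitsLockRotations` this applies to every relative periodic solution with
Lyapunov stable orbit which is not a relative equilibrium: it is periodic.

Proof. The product `F` of integral powers of the directions of two mutual position vectors whose degree
along `γ` vanishes has a continuous logarithm on `γ` (if the solution passes a point twice, it has two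
periods, and the mean values show that the angle is the same), which extends to a neighbourhood by
Tietze's theorem. A stable orbit has a neighbourhood of points whose solutions stay there.
-/

namespace Pool.Agent.Results.MP_5027f4_mp.LockedMeanMotions

open Set Pool.Agent.W821.TB Pool.Agent.N601.TL

theorem result {n : ℕ} {m : Fin n → ℝ} (hn : 2 ≤ n) (hm : ∀ a, 0 < m a) {x : ℝ → Ph n}
    (hx : IsSol m univ x) (hst : LyapunovStable m (range x)) :
    (∀ P : ℝ, 0 < P → (∀ t, x (t + P) = x t) → Locked m x P) ∧
    ∀ T : ℝ, 0 < T → DistPer x T → IsRelEq x ∨
      ∃ K : ℕ, 1 ≤ K ∧ (∀ t, x (t + 2 * K * T) = x t) ∧ Locked m x (2 * K * T) :=
  ⟨fun _ hP hper => locked hx hst hP hper, fun _ hT0 hT => locked_rel hn hm hx hst hT0 hT⟩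

end Pool.Agent.Results.MP_5027f4_mp.LockedMeanMotions
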